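import Mathlib

set_option autoImplicit false

namespace Pool.Agent.H.MP_c74059_gt

open Set Cardinal

/-- recursion along a well-order with an invariant depending on earlier values. -/
theorem wf_choice {I A : Type} [LinearOrder I] [WellFoundedLT I] [Nonempty A]
    (P : (t : I) → (I → A) → A → Prop)
    (hloc : ∀ t f g a, (∀ u, u < t → f u = g u) → P t f a → P t g a)
    (hstep : ∀ t f, (∀ u, u < t → P u f (f u)) → ∃ a, P t f a) :
    ∃ f : I → A, ∀ t, P t f (f t) := by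
  classical
  let ext : (t : I) → ((u : I) → u < t → A) → I → A :=
    fun t h u => if hu : u < t then h u hu else Classical.arbitrary A
  let F : (t : I) → ((u : I) → u < t → A) → A :=
    fun t h => Classical.epsilon (fun a => P t (ext t h) a)
  let f : I → A := (wellFounded_lt (α := I)).fix F
  have hf : ∀ t, f t = F t (fun u _ => f u) := fun t => WellFounded.fix_eq _ F t
  refine ⟨f, fun t => ?_⟩
  induction t using (wellFounded_lt (α := I)).induction with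
  | _ t ih =>
    have he : ∀ u, u < t → f u = ext t (fun u _ => f u) u := fun u hu => by
      simp only [ext, dif_pos hu]
    obtain ⟨a, ha⟩ := hstep t f ih
    have h1 : ∃ a, P t (ext t (fun u _ => f u)) a := ⟨a, hloc t _ _ a he ha⟩
    have h2 := Classical.epsilon_spec h1
    rw [hf t]
    exact hloc t _ _ _ (fun u hu => (he u hu).symm) h2

/-- under CH every type of size at most continuum is enumerated along a well-order with
countable initial segments. -/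
theorem exists_enum (hCH : continuum.{0} = aleph 1) (T : Type) [Nonempty T]
    (hT : #T ≤ continuum.{0}) :
    ∃ (I : Type) (_ : LinearOrder I) (_ : WellFoundedLT I) (e : I → T),
      Function.Surjective e ∧ ∀ t : I, (Iio t).Countable := by
  refine ⟨(aleph 1 : Cardinal.{0}).ord.ToType, inferInstance, inferInstance, ?_⟩
  have h1 : #T ≤ #((aleph 1 : Cardinal.{0}).ord.ToType) := by
    rw [mk_ord_toType, ← hCH]; exact hT
  obtain ⟨j⟩ := (Cardinal.le_def _ _).mp h1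
  refine ⟨Function.invFun j, Function.invFun_surjective j.injective, fun t => ?_⟩
  have h2 : #(Iio t) < aleph 1 := by simpa using mk_Iio_lt t
  rw [← le_aleph0_iff_set_countable, ← Order.lt_succ_iff, succ_aleph0]
  exact h2

/-- the diagonal step. -/
theorem diag (B : ℕ → Set ℕ) (S : ℕ → ℕ → Finset ℕ) (G : ℕ → ℕ)
    (hS : ∀ i n, ∀ x ∈ S i n, n ≤ x)
    (hB : ∀ j m, ∃ x, m ≤ x ∧ ∀ l ≤ j, x ∈ B l)
    (hBS : ∀ j i m, ∃ n, m ≤ n ∧ ∀ x ∈ S i n, ∀ l ≤ j, x ∈ B l) :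
    ∃ b : Set ℕ, b.Infinite ∧ (∀ l, ∃ m, ∀ x ∈ b, m ≤ x → x ∈ B l) ∧
      (∀ i m, ∃ n, m ≤ n ∧ ∀ x ∈ S i n, x ∈ b) ∧
      (∀ m, ∃ k, m ≤ k ∧ ∀ x ∈ b, x < k ∨ G k ≤ x) := by
  classical
  have one : ∀ j k, ∃ (E : Finset ℕ) (k' : ℕ), (∀ x ∈ E, (∀ l ≤ j, x ∈ B l) ∧ G k ≤ x ∧ k ≤ x ∧ x < k')
      ∧ E.Nonempty ∧ (∀ i ≤ j, ∃ n, j ≤ n ∧ S i n ⊆ E) ∧ k < k' ∧ G k ≤ k' := by
    intro j k
    obtain ⟨x0, hx0, hx1⟩ := hB j (G k + k)
    choose nn hn1 hn2 using fun i => hBS j i (G k + k + j)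
    let E : Finset ℕ := insert x0 ((Finset.range (j + 1)).biUnion fun i => S i (nn i))
    refine ⟨E, E.sup id + G k + k + 1, fun x hx => ?_, ⟨x0, Finset.mem_insert_self _ _⟩,
      fun i hi => ⟨nn i, by have := hn1 i; omega, fun x hx => ?_⟩, by omega, by omega⟩
    · have h0 : x ≤ E.sup id := Finset.le_sup (f := id) hx
      rcases Finset.mem_insert.mp hx with rfl | hx
      · exact ⟨hx1, by omega, by omega, by omega⟩
      · obtain ⟨i, _, hi⟩ := Finset.mem_biUnion.mp hx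
        have h1 := hS i _ x hi
        have h2 := hn1 i
        exact ⟨hn2 i x hi, by omega, by omega, by omega⟩
    · exact Finset.mem_insert_of_mem (Finset.mem_biUnion.mpr
        ⟨i, Finset.mem_range.mpr (by omega), hx⟩)
  choose E K h1 h2 h3 h4 h5 using one
  obtain ⟨k, hk⟩ : ∃ k : ℕ → ℕ, ∀ j, k (j + 1) = K j (k j) :=
    ⟨fun j => Nat.rec 0 (fun j kj => K j kj) j, fun j => rfl⟩
  have hmono : StrictMono k := strictMono_nat_of_lt_succ fun j => by rw [hk]; exact h4 _ _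
  have hle : ∀ j, j ≤ k j := fun j => hmono.le_apply
  refine ⟨{x | ∃ j, x ∈ E j (k j)}, ?_, fun l => ⟨k l, ?_⟩, fun i m => ?_, fun m => ⟨k m, hle m, ?_⟩⟩
  · apply Set.infinite_of_forall_exists_gt
    intro a
    obtain ⟨x, hx⟩ := h2 (a + 1) (k (a + 1))
    refine ⟨x, ⟨a + 1, hx⟩, ?_⟩
    have := (h1 _ _ x hx).2.2.1
    have := hle (a + 1)
    omega
  · rintro x ⟨j, hj⟩ hx
    refine (h1 _ _ x hj).1 l ?_
    have h6 := (h1 _ _ x hj).2.2.2
    rw [← hk] at h6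
    have : k l < k (j + 1) := by omega
    have := hmono.lt_iff_lt.mp this
    omega
  · obtain ⟨n, hn, hs⟩ := h3 (i + m) (k (i + m)) i (by omega)
    exact ⟨n, by omega, fun x hx => ⟨i + m, hs hx⟩⟩
  · rintro x ⟨j, hj⟩
    obtain ⟨_, h7, h8, h9⟩ := h1 _ _ x hj
    rw [← hk] at h9
    rcases lt_trichotomy j m with h | rfl | h
    · left
      exact h9.trans_le (hmono.monotone h)
    · right; exact h7
    · right
      have h10 : k (m + 1) ≤ k j := hmono.monotone h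
      have h11 := h5 m (k m)
      rw [← hk] at h11
      omega

/-- tasks. -/
abbrev Task : Type := (ℕ → Set (Finset ℕ)) × (ℕ → ℕ)

theorem card_task : #Task ≤ continuum.{0} := by
  simp [Task]

/-- an unbounded tower generating a Menger filter. -/
theorem tower (hCH : continuum.{0} = aleph 1) :
    ∃ (I : Type) (_ : LinearOrder I) (b : I → Set ℕ) (G : I → ℕ → ℕ),
      Function.Surjective G ∧ (∀ t : I, (Iio t).Countable) ∧ (∀ t, (b t).Infinite) ∧
      (∀ u t, u ≤ t → ∃ m, ∀ x ∈ b t, m ≤ x → x ∈ b u) ∧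
      (∀ t m, ∃ k, m ≤ k ∧ ∀ x ∈ b t, x < k ∨ G t k ≤ x) ∧
      (∀ X : ℕ → Set (Finset ℕ), (∀ t n m, ∃ s ∈ X n, ∀ x ∈ s, m ≤ x ∧ x ∈ b t) →
        ∃ S : ℕ → Finset ℕ, (∀ n, S n ∈ X n) ∧ (∀ n, ∀ x ∈ S n, n ≤ x) ∧
          ∃ u, ∀ t, u ≤ t → ∀ m, ∃ n, m ≤ n ∧ ∀ x ∈ S n, x ∈ b t) := by
  classical
  obtain ⟨I, _, _, e, he, hc⟩ := exists_enum hCH Task card_task
  let P : (t : I) → (I → Set ℕ × (ℕ → Finset ℕ)) → Set ℕ × (ℕ → Finset ℕ) → Prop :=
    fun t f a => a.1.Infinite ∧ (∀ u, u < t → ∃ m, ∀ x ∈ a.1, m ≤ x → x ∈ (f u).1) ∧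
      (∀ u, u < t → ∀ m, ∃ n, m ≤ n ∧ ∀ x ∈ (f u).2 n, x ∈ a.1) ∧
      (∀ n, ∀ x ∈ a.2 n, n ≤ x ∧ x ∈ a.1) ∧
      ((∀ n, ∃ s ∈ (e t).1 n, ∀ x ∈ s, n ≤ x ∧ x ∈ a.1) → ∀ n, a.2 n ∈ (e t).1 n) ∧
      (∀ m, ∃ k, m ≤ k ∧ ∀ x ∈ a.1, x < k ∨ (e t).2 k ≤ x)
  have hloc : ∀ t f g a, (∀ u, u < t → f u = g u) → P t f a → P t g a := by
    rintro t f g a h ⟨h1, h2, h3, h4, h5, h6⟩
    exact ⟨h1, fun u hu => h u hu ▸ h2 u hu, fun u hu => h u hu ▸ h3 u hu, h4, h5, h6⟩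
  have hstep : ∀ t f, (∀ u, u < t → P u f (f u)) → ∃ a, P t f a := by
    intro t f ih
    have hle : ∀ u v, v < t → u ≤ v → (∃ m, ∀ x ∈ (f v).1, m ≤ x → x ∈ (f u).1) ∧
        ∀ m, ∃ n, m ≤ n ∧ ∀ x ∈ (f u).2 n, x ∈ (f v).1 := by
      intro u v hv huv
      rcases huv.lt_or_eq with h | rfl
      · exact ⟨(ih v hv).2.1 u h, (ih v hv).2.2.1 u h⟩
      · exact ⟨⟨0, fun x hx _ => hx⟩, fun m => ⟨m, le_rfl, fun x hx => ((ih u hv).2.2.2.1 m x hx).2⟩⟩
    have hb : ∃ b : Set ℕ, b.Infinite ∧ (∀ u, u < t → ∃ m, ∀ x ∈ b, m ≤ x → x ∈ (f u).1) ∧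
        (∀ u, u < t → ∀ m, ∃ n, m ≤ n ∧ ∀ x ∈ (f u).2 n, x ∈ b) ∧
        (∀ m, ∃ k, m ≤ k ∧ ∀ x ∈ b, x < k ∨ (e t).2 k ≤ x) := by
      by_cases hne : (Iio t).Nonempty
      · obtain ⟨q, hq⟩ := (hc t).exists_eq_range hne
        have hq1 : ∀ i, q i < t := fun i => by
          have : q i ∈ Iio t := hq ▸ mem_range_self i
          exact this
        have hmax : ∀ j, ∃ v, v < t ∧ (∀ l ≤ j, q l ≤ v) ∧
            ∃ m, ∀ x ∈ (f v).1, m ≤ x → ∀ l ≤ j, x ∈ (f (q l)).1 := by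
          intro j
          obtain ⟨l0, _, hl0⟩ := Finset.exists_max_image (Finset.range (j + 1)) q
            ⟨0, Finset.mem_range.mpr (by omega)⟩
          have h1 : ∀ l ≤ j, q l ≤ q l0 := fun l hl => hl0 l (Finset.mem_range.mpr (by omega))
          refine ⟨q l0, hq1 l0, h1, ?_⟩
          have h2 : ∀ l, ∃ m, l ≤ j → ∀ x ∈ (f (q l0)).1, m ≤ x → x ∈ (f (q l)).1 := by
            intro l
            by_cases hl : l ≤ j
            · obtain ⟨m, hm⟩ := (hle _ _ (hq1 l0) (h1 l hl)).1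
              exact ⟨m, fun _ => hm⟩
            · exact ⟨0, fun h => absurd h hl⟩
          choose mm hmm using h2
          refine ⟨(Finset.range (j + 1)).sup mm, fun x hx hx' l hl => hmm l hl x hx ?_⟩
          exact (Finset.le_sup (f := mm) (Finset.mem_range.mpr (by omega))).trans hx'
        obtain ⟨b, h1, h2, h3, h4⟩ := diag (fun i => (f (q i)).1) (fun i => (f (q i)).2) (e t).2
          (fun i n x hx => ((ih _ (hq1 i)).2.2.2.1 n x hx).1)
          (fun j m => by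
            obtain ⟨v, hv, _, m', hm'⟩ := hmax j
            obtain ⟨x, hx, hx'⟩ := (ih v hv).1.exists_gt (m + m')
            exact ⟨x, by omega, hm' x hx (by omega)⟩)
          (fun j i m => by
            obtain ⟨v, hv, hv', m', hm'⟩ := hmax (j + i)
            obtain ⟨n, hn, hn'⟩ := (hle (q i) v hv (hv' i (by omega))).2 (m + m')
            refine ⟨n, by omega, fun x hx l hl => hm' x (hn' x hx) ?_ l (by omega)⟩
            have := ((ih _ (hq1 i)).2.2.2.1 n x hx).1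
            omega)
        refine ⟨b, h1, fun u hu => ?_, fun u hu => ?_, h4⟩
        · obtain ⟨i, rfl⟩ : u ∈ range q := hq ▸ hu
          exact h2 i
        · obtain ⟨i, rfl⟩ : u ∈ range q := hq ▸ hu
          exact h3 i
      · obtain ⟨b, h1, _, _, h4⟩ := diag (fun _ => univ) (fun _ _ => ∅) (e t).2
          (fun i n x hx => by simp at hx) (fun j m => ⟨m, le_rfl, fun _ _ => trivial⟩)
          (fun j i m => ⟨m, le_rfl, fun x hx => by simp at hx⟩)
        exact ⟨b, h1, fun u hu => absurd ⟨u, hu⟩ hne, fun u hu => absurd ⟨u, hu⟩ hne, h4⟩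
    obtain ⟨b, h1, h2, h3, h4⟩ := hb
    by_cases hact : ∀ n, ∃ s ∈ (e t).1 n, ∀ x ∈ s, n ≤ x ∧ x ∈ b
    · choose s hs1 hs2 using hact
      exact ⟨(b, s), h1, h2, h3, hs2, fun _ => hs1, h4⟩
    · exact ⟨(b, fun _ => ∅), h1, h2, h3, fun n x hx => by simp at hx, fun h => absurd h hact, h4⟩
  obtain ⟨f, hf⟩ := wf_choice P hloc hstep
  refine ⟨I, inferInstance, fun t => (f t).1, fun t => (e t).2, fun G => ?_, hc, fun t => (hf t).1,
    fun u t hut => ?_, fun t => (hf t).2.2.2.2.2, fun X hX => ?_⟩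
  · obtain ⟨t, ht⟩ := he (fun _ => ∅, G)
    exact ⟨t, by simp [ht]⟩
  · rcases hut.lt_or_eq with h | rfl
    · exact (hf t).2.1 u h
    · exact ⟨0, fun x hx _ => hx⟩
  · obtain ⟨u, hu⟩ := he (X, fun _ => 0)
    have h5 := (hf u).2.2.2.2.1
    rw [hu] at h5
    refine ⟨(f u).2, h5 (fun n => hX u n n), fun n x hx => ((hf u).2.2.2.1 n x hx).1, u,
      fun t hut => ?_⟩
    rcases hut.lt_or_eq with h | rfl
    · exact (hf t).2.2.1 u h
    · exact fun m => ⟨m, le_rfl, fun x hx => ((hf u).2.2.2.1 m x hx).2⟩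

end Pool.Agent.H.MP_c74059_gt
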